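import Pool.Agent.W898.VR.Lit

/-!
# The number of variables of the formulas of the construction
-/

set_option autoImplicit false

namespace Pool.Agent.Y926.VR

open Pool.Agent.W898.VR Form

/-- both members of the pair have all variables below `N` -/
def bd2 (N : ℕ) (p : Form × Form) : Prop := bd N p.1 ∧ bd N p.2

section

variable {K N : ℕ}

theorem bd_fsuc {p : Form × Form} (h : bd2 N p) : bd2 N (fsuc p) := ⟨⟨h.1, h.2⟩, ⟨h.2, h.1⟩⟩

theorem bd_iter (v : ℕ) {p : Form × Form} (h : bd2 N p) : bd2 N (fsuc^[v] p) := by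
  induction v with
  | zero => exact h
  | succ v ih => rw [Function.iterate_succ_apply']; exact bd_fsuc ih

theorem bd_ph (hN : 3 * K + 3 ≤ N) {i : ℕ} (hi : i < K) : bd2 N (ph K i) := by
  refine ⟨⟨?_, bd_fO (by omega)⟩, ?_, bd_fO (by omega)⟩
  · change K + 3 + 2 * i < N; omega
  · change K + 4 + 2 * i < N; omega

theorem bd_cur (hN : 3 * K + 3 ≤ N) {i : ℕ} (hi : i < K) (o : Op) : bd2 N (o.cur K i) := by
  cases o with
  | any v => exact bd_ph hN hi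
  | cst k k' => exact bd_numf (by omega) i k
  | dec v => exact bd_fsuc (bd_ph hN hi)

theorem bd_nxt (hN : 3 * K + 3 ≤ N) {i : ℕ} (hi : i < K) (o : Op) : bd2 N (o.nxt K i) := by
  cases o with
  | any v => exact bd_iter v (bd_ph hN hi)
  | cst k k' => exact bd_numf (by omega) i k'
  | dec v => exact bd_iter v (bd_ph hN hi)

theorem bd_ext (hN : 3 * K + 3 ≤ N) {i : ℕ} (hi : i < K) (o : Op) : bd N (o.ext K i) := by
  cases o with
  | any v => trivial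
  | cst k k' => trivial
  | dec v => exact ⟨⟨bd_fK (by omega) i, (bd_ph hN hi).1⟩, (bd_ph hN hi).2⟩

theorem bd_fE (hN : 3 * K + 3 ≤ N) {x : ℕ → Form × Form} (h : ∀ i < K, bd2 N (x i)) :
    bd N (fE K x) := by
  refine ⟨bd_cj fun i hi => ?_, bd_dj fun i hi => ?_⟩
  · obtain ⟨h1, h2⟩ := h i hi
    exact ⟨bd_fK (by omega) i, h2, h2, h1⟩
  · obtain ⟨h1, h2⟩ := h i hi
    have h3 := bd_fK (K := K) (N := N) (by omega) i
    exact ⟨⟨⟨h3, h1⟩, h2⟩, ⟨⟨h3, h2⟩, h1⟩, ⟨⟨h3, h2, h1⟩, h1⟩⟩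

theorem bd_insExt (hN : 3 * K + 3 ≤ N) (I : Ins) : bd N (I.ext K) :=
  ⟨bd_dj fun _ hi => bd_ext hN hi _, bd_fW (by omega)⟩

theorem bd_ax (hN : 3 * K + 3 ≤ N) (I : Ins) : bd N (I.ax K) := by
  unfold Ins.ax
  split_ifs
  · exact ⟨bd_fE hN fun _ hi => bd_cur hN hi _, bd_insExt hN I⟩
  · exact ⟨bd_fE hN fun _ hi => bd_nxt hN hi _, bd_fE hN fun _ hi => bd_cur hN hi _,
      bd_insExt hN I⟩

theorem bd_lc {l : List Form} (h : ∀ a ∈ l, bd N a) : bd N (lc l) := by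
  induction l with
  | nil => exact bd_top
  | cons a l ih => exact ⟨h a (by simp), ih fun b hb => h b (by simp [hb])⟩

theorem bd_fT (hN : 3 ≤ N) : bd N fT := by
  have h0 : 0 < N := by omega
  have h1 : 1 < N := by omega
  simp [fT, neg, bd, h0, h1]

theorem bd_fL (hN : 3 ≤ N) : bd N fL := by
  have h0 : 0 < N := by omega
  have h1 : 1 < N := by omega
  have h2 : 2 < N := by omega
  simp [fL, neg, bd, h0, h1, h2]

theorem bd_fB (hN : 3 * K + 3 ≤ N) (l : List Ins) (c : ℕ → ℕ) : bd N (fB K l c) := by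
  refine ⟨⟨bd_fT (by omega), bd_fL (by omega), bd_cj fun i _ => ?_, bd_lc fun a ha => ?_⟩,
    bd_fE hN fun i _ => bd_numf (by omega) i _, bd_fW (by omega)⟩
  · exact ⟨⟨⟨bd_fK (by omega) i, bd_fS (by omega) i⟩, bd_fH (by omega)⟩, bd_fW (by omega)⟩
  · obtain ⟨I, _, rfl⟩ := List.mem_map.1 ha
    exact bd_ax hN I

theorem bd_fpi (hN : K + 3 ≤ N) : bd N (fpi K) := by
  refine ⟨bd_fn hN, ?_, bd_dj fun j hj => ⟨?_, ?_⟩, ?_, trivial⟩
  · change 1 < N; omega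
  · change j + 1 < N; omega
  · change j + 2 < N; omega
  · change K + 2 < N; omega

theorem bd_fY (hN : K + 3 ≤ N) : bd N (fY K) := by
  have h := bd_fpi hN
  exact ⟨⟨⟨⟨⟨h, trivial⟩, trivial⟩, h⟩, ⟨h, trivial⟩, ⟨h, trivial⟩, trivial⟩, bd_fW hN⟩

theorem bd_fBY (hN : 3 * K + 3 ≤ N) (l : List Ins) (c : ℕ → ℕ) : bd N (fBY K l c) :=
  ⟨bd_fB hN l c, bd_fY (by omega)⟩

theorem bd_fA0 (hN : K + 3 ≤ N) : bd N (fA0 K) :=
  ⟨bd_fT (by omega), bd_fL (by omega), bd_fW hN⟩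

end

end Pool.Agent.Y926.VR
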