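import Pool.Agent.W898.VR.Fml
import Pool.Agent.W898.VR.LDefs

/-!
# Definitions: restricted rule `V₁⁻`, `Σ₁`-hardness, heredity for the rule `V₁`
-/

set_option autoImplicit false

namespace Pool.Agent.Y926.VR

open Pool.Agent.W898.VR Form

/-- the axiom `¬p₀ ∨ ¬(¬p₀ ∧ p₁) ∨ ¬(¬p₀ ∧ ¬p₁)` of top width at most two -/
def btw2 : Form :=
  dis (neg (var 0)) (dis (neg (con (neg (var 0)) (var 1))) (neg (con (neg (var 0)) (neg (var 1)))))

/-- the premise `(p₁ → q₁) → p₂ ∨ p₃` of the restricted rule `V₁⁻` -/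
def rPrem : Form := imp (imp (vp 0) (vq 0)) (dis (vp 1) (vp 2))

/-- the conclusion `((p₁ → q₁) → p₁) ∨ ((p₁ → q₁) → p₂) ∨ ((p₁ → q₁) → p₃)` of `V₁⁻` -/
def rConc : Form :=
  dis (dis (imp (imp (vp 0) (vq 0)) (vp 0)) (imp (imp (vp 0) (vq 0)) (vp 1)))
    (imp (imp (vp 0) (vq 0)) (vp 2))

/-- `A` contains only the variables `p₀, …, p₁₇`, and `L_A` contains the axiom of top width at most
two. -/
def SmallForm (A : Form) : Prop := bd 18 A ∧ Logic A btw2

/-- `{A : P A}` is `Σ₁`-hard, already inside the class `SmallForm`: every r.e. set of natural numbers is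
many-one reducible to it by a computable function with values in `SmallForm`. -/
def Hard (P : Form → Prop) : Prop :=
  ∀ p : ℕ → Prop, REPred p → ∃ F : ℕ → Form, Computable (fun n => num (F n)) ∧
    (∀ n, SmallForm (F n)) ∧ ∀ n, p n ↔ P (F n)

/-- Every deductive system that extends `c` and in which Visser's rule `V₁` is admissible derives
`V₁`. -/
def V1Hered (c : Set Form → Form → Prop) : Prop :=
  ∀ d : Set Form → Form → Prop, IsDS d → (∀ Γ : Set Form, Γ.Finite → ∀ a, c Γ a → d Γ a) →
    Adm d {vPrem 0} (vConc 0) → d {vPrem 0} (vConc 0)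

/-- Heredity for the rules in `R`: every deductive system that extends `c` derives every rule
`Γ / a` in `R` (with `Γ` finite) that is admissible in it. For the set of all rules this is
hereditary structural completeness. -/
def RHered (R : Set (Set Form × Form)) (c : Set Form → Form → Prop) : Prop :=
  ∀ d : Set Form → Form → Prop, IsDS d → (∀ Γ : Set Form, Γ.Finite → ∀ a, c Γ a → d Γ a) →
    ∀ ρ ∈ R, ρ.1.Finite → Adm d ρ.1 ρ.2 → d ρ.1 ρ.2

end Pool.Agent.Y926.VR
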