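import Pool.Agent.Y926.VR.Hard

/-!
# The two theorems
-/

set_option autoImplicit false

namespace Pool.Agent.Y926.VR

open Pool.Agent.W898.VR Form

/-- the sandwich theorem -/
theorem sandwich {P : Form → Prop} (h1 : ∀ A, (∀ a, Logic A a ↔ Logic Lst a) → P A)
    (h2 : ∀ A, P A → Admissible A rPrem rConc ∨ ∃ c, Compl (Cn A) c ∧ V1Hered c) : Hard P := by
  intro p hp
  obtain ⟨F, hF, hS, hin, hout⟩ := family hp
  refine ⟨F, hF, hS, fun n => ⟨fun h => h1 _ (hin n h), fun h => ?_⟩⟩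
  by_contra hn
  obtain ⟨h3, h4⟩ := hout n hn
  rcases h2 _ h with h5 | ⟨c, hc, h5⟩
  · exact h3 h5
  · exact h4 c hc h5

theorem admitsVisser_of {A : Form} (h : ∀ a, Logic A a ↔ Logic Lst a) : AdmitsVisser A :=
  admits_congr ((h A).1 (logic_self A)) ((h Lst).2 (logic_self Lst)) admits_Lst

theorem admitsAll_Lst : AdmitsAll Lst := (visser_basis Lst).1 admits_Lst

theorem hard_admitsAll : Hard AdmitsAll :=
  sandwich (fun A h => (visser_basis A).1 (admitsVisser_of h))
    (fun A h => Or.inl (r_of_v 0 ((visser_basis A).2 h 0)))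

theorem hard_rules (S : Set ℕ) (hS : S.Nonempty) :
    Hard (fun A => ∀ n ∈ S, Admissible A (vPrem n) (vConc n)) := by
  obtain ⟨m, hm⟩ := hS
  exact sandwich (fun A h n _ => admitsVisser_of h n) (fun A h => Or.inl (r_of_v m (h m hm)))

theorem hstr_of {A : Form} (h : ∀ a, Logic A a ↔ Logic Lst a) :
    ∃ c, Compl (Cn A) c ∧ HStrC c :=
  ⟨_, compl_compl A, hsc_of_admits (admitsVisser_of h)⟩

theorem hard_hstr : Hard (fun A => ∃ c, Compl (Cn A) c ∧ HStrC c) :=
  sandwich (fun _ h => hstr_of h) (fun _ ⟨c, hc, h⟩ => Or.inr ⟨c, hc, hstrc_v1 h⟩)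

theorem hard_rhered (R : Set (Set Form × Form)) (hR : ({vPrem 0}, vConc 0) ∈ R) :
    Hard (fun A => ∃ c, Compl (Cn A) c ∧ RHered R c) := by
  refine sandwich (fun A h => ?_) (fun _ ⟨c, hc, h⟩ => Or.inr ⟨c, hc, ?_⟩)
  · obtain ⟨c, hc, h1⟩ := hstr_of h
    exact ⟨c, hc, fun d hd hext ρ _ hf hadm => h1 d hd hext ρ.1 hf ρ.2 hadm⟩
  · exact fun d hd hext hadm => h d hd hext _ hR (Set.finite_singleton _) hadm

/-- `RHered` for the set of all rules is hereditary structural completeness. -/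
theorem rhered_univ (c : Set Form → Form → Prop) : RHered Set.univ c ↔ HStrC c :=
  ⟨fun h d hd hext Γ hΓ a hadm => h d hd hext (Γ, a) trivial hΓ hadm,
    fun h d hd hext ρ _ hf hadm => h d hd hext ρ.1 hf ρ.2 hadm⟩

theorem rhered_v1 (c : Set Form → Form → Prop) :
    RHered {({vPrem 0}, vConc 0)} c ↔ V1Hered c := by
  constructor
  · exact fun h d hd hext hadm => h d hd hext _ rfl (Set.finite_singleton _) hadm
  · intro h d hd hext ρ hρ _ hadm
    rw [Set.mem_singleton_iff] at hρ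
    subst hρ
    exact h d hd hext hadm

end Pool.Agent.Y926.VR
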