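import Pool.Agent.Y926.VR.Univ
import Pool.Agent.Y926.VR.Bd
import Pool.Agent.Y926.VR.Defs

/-!
# `Σ₁`-hardness of all properties between two extremes
-/

set_option autoImplicit false

namespace Pool.Agent.Y926.VR

open Pool.Agent.W898.VR Form

/-! ### the restricted rule in the case of an infinite run -/

section run

open Pt

variable {K : ℕ} {κ : ℕ → ℕ → ℕ}

theorem not_r (hK : 2 ≤ K) {l : List Ins} {c0 : ℕ → ℕ} (R : Run K l c0 κ) :
    ¬ Admissible (fBY K l c0) rPrem rConc := by
  intro hadm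
  set x : ℕ → Form × Form := fun i => numf K i (c0 i) with hx
  have h1 : Logic (fBY K l c0) (rPrem.subst (sv K x)) := by
    have e1 : rPrem.subst (sv K x) = imp (fE K x) (fW K) := rfl
    rw [e1]
    exact Logic.mp _ _ (Logic.andR (fB0 K l) _) (fBY_fB K l c0)
  have h2 := hadm (sv K x) h1
  have h3 := sound V0_val (fun σ w => by
    rw [frc_subst]
    exact ⟨frame_B hK R (val_subst V0_val σ) w, valid_Y (val_subst V0_val σ) w⟩) h2
      (r : Pt K κ)
  have e2 : rConc.subst (sv K x) =
      dis (dis (imp (fE K x) (fEp K x)) (imp (fE K x) fn)) (imp (fE K x) (fW1 K)) := rfl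
  rw [e2] at h3
  have P : Pin (V0 K κ) := V0_pin
  have hE : ∀ w : Pt K κ, (∀ w', w ≤ w' → (∀ t, w' ≠ e t) ∧ w' ≠ r) →
      frc (V0 K κ) (fE K x) w := by
    intro w hw
    have h4 := sE_of hK (fun i => fr2 (V0 K κ) (x i)) (fun i _ => good_num P V0_val hK i _) w hw
    rw [frc_fE]
    refine (sE_congr (fun i hi => ?_) (fun i _ => rfl) _).1 h4
    funext w
    exact (propext (e_fK P hK hi w)).symm
  rcases h3 with (h3 | h3) | h3
  · -- the first ladder
    set k := c0 0 with hk
    have h5 := h3 (lad ⟨0, by omega⟩ (k + 3)) (r_le _) (hE _ (by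
      intro w' hw'
      rcases above_lad _ _ hw' with h | ⟨n', rfl, _⟩
      · constructor
        · rintro t rfl; exact h
        · rintro rfl; exact h
      · have h6 := reg_lad (K := K) (κ := κ) ⟨0, by omega⟩ n'
        constructor
        · intro t ht
          rw [ht] at h6; exact h6
        · intro ht
          rw [ht] at h6; exact h6))
    rw [frc_fEp] at h5
    have h6 := h5 0 (by omega) _ le_rfl ((e_fK P hK (by omega) _).2 (reg_lad ⟨0, by omega⟩ _))
    have hn := num_num P V0_val hK ⟨0, by omega⟩ k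
    have hg : Good (fr2 (V0 K κ) (numf K 0 k)) := good_num P V0_val hK 0 k
    rcases h6 with h6 | h6
    · have := ((hn (k + 3)).2).1 h6
      omega
    · have h7 := (sI_lad hg ⟨0, by omega⟩ (k + 3)).1 h6 (k + 1) (by omega)
        (((hn (k + 1)).2).2 (Or.inr rfl))
      have := ((hn (k + 1)).1).1 h7
      omega
  · have h4 := h3 b (r_le _) (hE _ (by
      intro w' hw'
      rw [b_le hw']
      exact ⟨fun t h => (by cases h), fun h => (by cases h)⟩))
    rw [e_fn P] at h4
    obtain ⟨i, hi⟩ := h4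
    cases hi
  · have h4 := h3 (a ⟨K + 2, by omega⟩) (r_le _) (hE _ (by
      intro w' hw'
      obtain ⟨j', rfl, _⟩ := a_le hw'
      exact ⟨fun t h => (by cases h), fun h => (by cases h)⟩))
    rcases h4 with h4 | h4 | h4
    · have h5 := h4 _ le_rfl ((e_fn P _).2 ⟨_, rfl⟩)
      have h6 := (P.p 1 le_rfl (by omega) _).1 h5
      simp at h6
    · rw [frc_dj] at h4
      obtain ⟨j, hj, h4⟩ := h4
      have h5 := h4 (a ⟨K + 1 - j, by omega⟩) (by change K + 1 - j ≤ K + 2; omega)
        ⟨(e_fn P _).2 ⟨_, rfl⟩, (P.p (j + 1) (by omega) (by omega) _).2 (by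
          change K + 1 - j + (j + 1) ≤ K + 2; omega)⟩
      have h6 := (P.p (j + 2) (by omega) (by omega) _).1 h5
      simp only at h6
      omega
    · refine h4 (a ⟨0, by omega⟩) (Nat.zero_le _) ⟨(e_fn P _).2 ⟨_, rfl⟩,
        (P.p (K + 2) (by omega) le_rfl _).2 ?_⟩
      simp

end run

/-! ### heredity for the rule `V₁` in the case of an infinite run -/

/-- The structural completion is not hereditary for the rule `V₁`. -/
theorem not_v1hered {A : Form} {K : ℕ} (hK : 1 ≤ K) (hT : Logic A fT) (hL : Logic A fL)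
    (hA : Logic (fA0 K) A) (hY : Logic A (fY K)) (hr : ¬ Logic A (frho K))
    (c : Set Form → Form → Prop) (hc : Compl (Cn A) c) : ¬ V1Hered c := by
  intro hH
  set d : Set Form → Form → Prop := fun Γ a => ∃ Δ : Set Form, Δ ⊆ Γ ∧ Δ.Finite ∧ P5 A Δ a with hd
  have hds : IsDS d := by
    refine isDS_of (P5 A) (fun Γ a ha => ⟨fun σ _ h => h a ha, fun V _ h => h a ha⟩)
      (fun Γ Δ a h ha => ⟨fun σ hσ h' => ha.1 σ hσ fun b hb => h' b (h hb),
        fun V hV h' => ha.2 V hV fun b hb => h' b (h hb)⟩)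
      (fun Γ Δ a hb ha => ⟨fun σ hσ h' => ha.1 σ hσ fun b hb' => (hb b hb').1 σ hσ h',
        fun V hV h' => ha.2 V hV fun b hb' => (hb b hb').2 V hV h'⟩)
      (fun σ Γ a ha => ⟨fun τ hτ h' => ?_, fun V hV h' g => ?_⟩)
    · rw [subst_subst]
      refine ha.1 _ (fun i => bd_subst1 hτ _) fun b hb => ?_
      rw [← subst_subst]
      exact h' _ ⟨b, hb, rfl⟩
    · rw [frc_subst]
      refine ha.2 _ (val_subst hV σ) (fun b hb g => ?_) g
      rw [← frc_subst]
      exact h' _ ⟨b, hb, rfl⟩ g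
  -- the extension
  have hext : ∀ Γ : Set Form, Γ.Finite → ∀ a, c Γ a → d Γ a := by
    intro Γ hΓ a ha
    have hadm := (adm_iff).1 ((hc.rule Γ hΓ a).1 ha)
    refine ⟨Γ, subset_rfl, hΓ, fun σ _ h => hadm σ h, fun V hV h g => ?_⟩
    have hpm := fmap_pm (A := A) hY
    have hp : ∀ T : PT A, frc (PT.cV A) (fpi K) T ↔ fmap A K T = G5.g0 := fun T =>
      (T.truth _).trans fmap0.symm
    have h1 : Logic A (a.subst (fun i => chiU (fpi K) (V i))) := by
      refine hadm _ fun b hb => logic_of_canon fun T => ?_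
      rw [frc_pull hpm hp hV]
      exact h b hb _
    obtain ⟨T, hT4⟩ := exists_g4 hr
    obtain ⟨U, _, hU⟩ := hpm.back T g (by rw [hT4]; exact G5.r_le _)
    have h2 := canon_of h1 U
    rw [frc_pull hpm hp hV, hU] at h2
    exact h2
  have hsc := hH d hds hext (by
    intro σ hσ
    obtain ⟨Δ, hΔ, _, h1⟩ := hσ (vPrem 0) rfl
    have hadm : ∀ τ : ℕ → Form, (∀ i, bd 1 (τ i)) → Logic A (((vConc 0).subst σ).subst τ) := by
      intro τ hτ
      have h2 := h1.1 τ hτ (fun b hb => (hΔ hb).elim)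
      rw [subst_subst] at h2 ⊢
      exact v1_one hK hT hL hA _ (fun i => bd_subst1 hτ _) h2
    exact ⟨∅, Set.empty_subset _, Set.finite_empty, fun τ hτ _ => hadm τ hτ,
      fun V hV _ g => g_of_one hK hA hadm hV g⟩)
  obtain ⟨Δ, hΔ, _, h1⟩ := hsc
  refine VG_conc (h1.2 VG VG_val (fun b hb g => ?_) G5.g4)
  have := hΔ hb
  rw [Set.mem_singleton_iff] at this
  rw [this]
  exact VG_prem g

theorem not_v1hered_run {K : ℕ} (hK : 2 ≤ K) {κ : ℕ → ℕ → ℕ} {l : List Ins} {c0 : ℕ → ℕ}
    (R : Run K l c0 κ) (c : Set Form → Form → Prop) (hc : Compl (Cn (fBY K l c0)) c) :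
    ¬ V1Hered c :=
  not_v1hered (by omega) (fBY_fT K l c0) (fBY_fL K l c0) (fA0_fBY K l c0) (fBY_fY K l c0)
    (not_rho hK R) c hc

theorem hstrc_v1 {c : Set Form → Form → Prop} (h : HStrC c) : V1Hered c :=
  fun d hd hext hadm => h d hd hext {vPrem 0} (Set.finite_singleton _) (vConc 0) hadm

/-- If `V₁` is admissible then the structural completion is hereditary for `V₁`. -/
theorem v1hered_of {A : Form} (h : Admissible A (vPrem 0) (vConc 0))
    {c : Set Form → Form → Prop} (hc : Compl (Cn A) c) : V1Hered c := by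
  intro d _ hext _
  refine hext _ (Set.finite_singleton _) _ ((hc.rule _ (Set.finite_singleton _) _).2 ?_)
  rw [adm_iff]
  exact fun σ hσ => h σ (hσ _ rfl)

/-! ### each of Visser's rules implies `V₁⁻` -/

theorem r_of_v {A : Form} (m : ℕ) (h : Admissible A (vPrem m) (vConc m)) :
    Admissible A rPrem rConc := by
  intro σ hσ
  set τ : ℕ → Form := fun j => if j = 0 then bot else if j % 2 = 0 then σ 2
    else if j = 2 * (m + 1) + 1 then σ 3 else if j = 2 * (m + 2) + 1 then σ 5 else σ 1 with hτ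
  have t0 : τ 0 = bot := rfl
  have tp : ∀ i ≤ m, τ (2 * i + 1) = σ 1 := by
    intro i hi
    simp only [hτ]
    rw [if_neg (by omega), if_neg (by omega), if_neg (by omega), if_neg (by omega)]
  have tq : ∀ i, τ (2 * i + 2) = σ 2 := by
    intro i
    simp only [hτ]
    rw [if_neg (by omega), if_pos (by omega)]
  have t2 : τ (2 * (m + 1) + 1) = σ 3 := by
    simp only [hτ]
    rw [if_neg (by omega), if_neg (by omega), if_pos trivial]
  have t3 : τ (2 * (m + 2) + 1) = σ 5 := by
    simp only [hτ]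
    rw [if_neg (by omega), if_neg (by omega), if_neg (by omega), if_pos trivial]
  have hvA : ∀ T : PT A, frc (PT.cV A) ((vA m).subst τ) T ↔
      frc (PT.cV A) (imp (σ 1) (σ 2)) T := by
    intro T
    have e : (vA m).subst τ = bigAnd (fun i => imp (τ (2 * i + 1)) (τ (2 * i + 2))) m := by
      rw [vA, subst_bigAnd]
      rfl
    rw [e, frc_bigAnd]
    constructor
    · intro h1
      have h2 := h1 0 (Nat.zero_le _)
      rw [tp 0 (Nat.zero_le _), tq 0] at h2
      exact h2
    · intro h1 i hi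
      rw [tp i hi, tq i]
      exact h1
  have h1 : Logic A ((vPrem m).subst τ) := by
    refine logic_of_canon fun T => Or.inl ?_
    intro U _ hU
    have h2 := (hvA U).1 hU
    have h3 := canon_of hσ U U le_rfl h2
    change frc _ (τ (2 * (m + 1) + 1)) U ∨ frc _ (τ (2 * (m + 2) + 1)) U
    rw [t2, t3]
    exact h3
  have h2 := h τ h1
  refine logic_of_canon fun T => ?_
  have h3 := canon_of h2 T
  rw [vConc, subst, subst_bigOr] at h3
  rcases h3 with h3 | h3
  · rw [frc_bigOr] at h3
    obtain ⟨j, hj, h3⟩ := h3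
    have key : ∀ U : PT A, T ≤ U → frc (PT.cV A) (imp (σ 1) (σ 2)) U →
        frc (PT.cV A) (τ (2 * j + 1)) U := fun U hU hA => h3 U hU ((hvA U).2 hA)
    rcases (by omega : j ≤ m ∨ j = m + 1 ∨ j = m + 2) with h4 | h4 | h4
    · rw [tp j h4] at key
      exact Or.inl (Or.inl key)
    · rw [h4, t2] at key
      exact Or.inl (Or.inr key)
    · rw [h4, t3] at key
      exact Or.inr key
  · exact h3.elim

/-! ### the reduction -/

/-- The target logic of the reduction in the case of halting. -/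
def Lst : Form := fA0 5

theorem admits_Lst : AdmitsVisser Lst := admits_fA0 5

open Pool.Agent.H502.PcSrc in
/-- The family of formulas. -/
theorem family {p : ℕ → Prop} (hp : REPred p) : ∃ F : ℕ → Form,
    Computable (fun n => num (F n)) ∧ (∀ n, SmallForm (F n)) ∧
    (∀ n, p n → ∀ a, Logic (F n) a ↔ Logic Lst a) ∧
    (∀ n, ¬ p n → ¬ Admissible (F n) rPrem rConc ∧
      ∀ c, Compl (Cn (F n)) c → ¬ V1Hered c) := by
  obtain ⟨g, hg, hpg⟩ := re_reduces hp
  obtain ⟨Q, hQ, M, q0, N, _, hN, hund⟩ := exists_sys_u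
  let _ : Fintype (RS M) := Fintype.ofFinite _
  set code : RS M → ℕ := fun p => (Fintype.equivFin (RS M) p : ℕ) with hcode
  have hc : Function.Injective code := fun p q h =>
    (Fintype.equivFin (RS M)).injective (Fin.ext h)
  set p0 : RS M := RS.d1 q0 (z0 M)
  set cn : ℕ → Bool × Bool → ℤ := fun n => v4 (N (g n)) 0 0 0 with hcn
  have h3 : ∀ n, ∀ j, 0 ≤ cn n j := by
    rintro n ⟨j1, j2⟩
    cases j1 <;> cases j2 <;> simp [hcn, v4]
  have hh : ∀ n, (dm M q0 0).Halts (some p0, cn n) ↔ p n := by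
    intro n
    have h1 := dm_halts_iff M q0 0 q0 (ini (N (g n)))
    have h2 : (v4 ((ini (N (g n)) true : ℕ) : ℤ) ((ini (N (g n)) false : ℕ) : ℤ) 0 0 :
        Bool × Bool → ℤ) = cn n := by
      simp [ini, hcn]
    rw [h2] at h1
    exact h1.trans ((hund (g n)).trans (hpg n).symm)
  refine ⟨fun n => fBY 5 (prog (dm M q0 0) code) (cfg code p0 (cn n)), ?_, ?_, ?_, ?_⟩
  · refine CF.con' (cf_fB 5 _ ?_) (CF.cst _)
    intro i hi
    rcases Nat.eq_zero_or_pos i with h0 | h0
    · subst h0
      refine (hN.comp hg).of_eq fun n => ?_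
      change N (g n) = (cn n (false, true)).toNat
      simp [hcn, v4]
    · have e : ∀ n, cfg code p0 (cn n) i = cfg code p0 (cn 0) i := by
        intro n
        unfold cfg
        by_cases hi4 : i < 4
        · rw [if_pos hi4, if_pos hi4]
          have : i = 1 ∨ i = 2 ∨ i = 3 := by omega
          rcases this with rfl | rfl | rfl <;> rfl
        · rw [if_neg hi4, if_neg hi4]
      exact (Computable.const (cfg code p0 (cn 0) i)).of_eq fun n => (e n).symm
  · exact fun n => ⟨bd_fBY (by norm_num) _ _, fBY_fT 5 _ _⟩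
  · intro n hpn
    obtain ⟨k, hk⟩ := (hh n).2 hpn
    have h5 : HaltsFrom 5 (prog (dm M q0 0) code) (cfg code p0 (cn n)) :=
      prog_halts _ hc k p0 (cn n) (h3 n) hk
    have hW : Logic (fBY 5 (prog (dm M q0 0) code) (cfg code p0 (cn n))) (fW 5) := by
      refine logic_of_canon fun T => ?_
      exact halt_W (PT.cV_val _) 5 _ _
        (fun σ w => canon_of ((fBY_fB 5 _ _).sub σ) w) h5 T
    intro a
    exact ⟨fun ha => Logic.le (fA0_fBY 5 _ _) ha,
      fun ha => Logic.le (fA0_of (fBY_fT 5 _ _) (fBY_fL 5 _ _) hW) ha⟩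
  · intro n hpn
    have h6 : ¬ (dm M q0 0).Halts (some p0, cn n) := fun h => hpn ((hh n).1 h)
    obtain ⟨κ, R⟩ := prog_run (dm M q0 0) hc p0 (cn n) (h3 n) h6
    exact ⟨not_r (by norm_num) R, fun c hc => not_v1hered_run (by norm_num) R c hc⟩

/-! ### consequences of hardness -/

/-- the complement of the halting problem is not r.e. -/
theorem exists_re_not_co : ∃ p : ℕ → Prop, REPred p ∧ ¬ REPred (fun n => ¬ p n) := by
  refine ⟨fun n => (Pool.Agent.H502.PcSrc.u n).Dom, ?_, ?_⟩
  · exact Pool.Agent.H502.PcSrc.u_partrec.dom_re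
  · intro h
    exact Pool.Agent.H502.PcSrc.u_not_computable (ComputablePred.computable_iff_re_compl_re'.2
      ⟨Pool.Agent.H502.PcSrc.u_partrec.dom_re, h⟩)

theorem REPred.comp' {q : ℕ → Prop} (hq : REPred q) {f : ℕ → ℕ} (hf : Computable f) :
    REPred (fun n => q (f n)) := by
  have h0 : Partrec (fun a : ℕ => Part.assert (q a) fun _ => Part.some ()) := hq
  exact h0.comp hf

/-- Hardness implies that the complement is not r.e., inside every class containing `SmallForm`. -/
theorem Hard.not_re {P : Form → Prop} (h : Hard P) (C : Form → Prop) (hC : ∀ A, SmallForm A → C A) :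
    ¬ REPred (fun k : ℕ => ∃ A : Form, num A = k ∧ C A ∧ ¬ P A) := by
  intro hre
  obtain ⟨p, hp, hnp⟩ := exists_re_not_co
  obtain ⟨F, hF, hS, hiff⟩ := h p hp
  apply hnp
  refine (REPred.comp' hre hF).of_eq fun n => ?_
  constructor
  · rintro ⟨A, hA, _, h1⟩ h2
    rw [num_inj hA] at h1
    exact h1 ((hiff n).1 h2)
  · exact fun h1 => ⟨F n, rfl, hC _ (hS n), fun h2 => h1 ((hiff n).2 h2)⟩

/-- Hardness implies undecidability, inside every class containing `SmallForm`. -/
theorem Hard.not_computable {P : Form → Prop} (h : Hard P) (C : Form → Prop)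
    (hC : ∀ A, SmallForm A → C A) :
    ¬ ComputablePred (fun k : ℕ => ∃ A : Form, num A = k ∧ C A ∧ P A) := by
  intro hre
  obtain ⟨p, hp, hnp⟩ := exists_re_not_co
  obtain ⟨F, hF, hS, hiff⟩ := h p hp
  apply hnp
  refine (REPred.comp' hre.not.to_re hF).of_eq fun n => ?_
  constructor
  · intro h1 h2
    exact h1 ⟨F n, rfl, hC _ (hS n), (hiff n).1 h2⟩
  · rintro h1 ⟨A, hA, _, h2⟩
    rw [num_inj hA] at h2
    exact h1 ((hiff n).2 h2)

end Pool.Agent.Y926.VR
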