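import Pool.Agent.W898.VR.Lit

/-!
# A universal machine: every r.e. predicate reduces to the halting problem of one fixed machine
-/

set_option autoImplicit false

namespace Pool.Agent.Y926.VR

open Pool.Agent.H502.PcSrc Turing Relation
open Turing.PartrecToTM2 (trNat trList trNum trPosNum)

/-- every r.e. predicate is reducible to the domain of `u` -/
theorem re_reduces {p : ℕ → Prop} (hp : REPred p) :
    ∃ f : ℕ → ℕ, Computable f ∧ ∀ n, p n ↔ (u (f n)).Dom := by
  have h0 : Partrec (fun a : ℕ => Part.assert (p a) fun _ => Part.some ()) := hp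
  have h1 : Partrec (fun m : ℕ =>
      (Part.assert (p m.unpair.1) fun _ => Part.some ()).map (fun _ => (0 : ℕ))) :=
    (h0.comp (Computable.fst.comp Computable.unpair)).map (Computable.const 0).to₂
  have h2 : Nat.Partrec (fun m : ℕ =>
      (Part.assert (p m.unpair.1) fun _ => Part.some ()).map (fun _ => (0 : ℕ))) :=
    Partrec.nat_iff.1 h1
  obtain ⟨c, hc⟩ := Nat.Partrec.Code.exists_code.1 h2
  refine ⟨fun n => Encodable.encode (Nat.Partrec.Code.curry c n), ?_, ?_⟩
  · exact (Primrec.encode.comp
      (Nat.Partrec.Code.primrec₂_curry.comp (Primrec.const c) Primrec.id)).to_comp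
  · intro n
    rw [u, Denumerable.ofNat_encode, Nat.Partrec.Code.eval_curry, hc]
    simp [Part.dom_iff_mem]

/-- The machine of `exists_sys`, with its halting problem identified. -/
theorem exists_sys_u : ∃ (Q : Type) (_ : Finite Q) (M : Sys Q Bool) (q0 : Q) (N : ℕ → ℕ),
    0 < M.l ∧ Computable N ∧ ∀ n, M.Halts (some q0) (ini (N n)) ↔ (u n).Dom := by
  classical
  obtain ⟨Λ, i1, i2, M, hM⟩ := exists_machine
  have fK : Finite PartrecToTM2.K' := by
    refine Finite.of_injective (fun k : PartrecToTM2.K' => match k with
      | .main => (0 : Fin 4) | .rev => 1 | .aux => 2 | .stack => 3) ?_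
    intro a b h
    cases a <;> cases b <;> simp_all
  have fG : Finite (TM2to1.Γ' PartrecToTM2.K' (fun _ => PartrecToTM2.Γ')) :=
    inferInstanceAs (Finite (Bool × (PartrecToTM2.K' → Option PartrecToTM2.Γ')))
  let _ : Fintype (TM2to1.Γ' PartrecToTM2.K' (fun _ => PartrecToTM2.Γ')) := Fintype.ofFinite _
  let N : ℕ → ℕ := fun n => enc (sym true .cons :: (trNat n).reverse.map (sym false))
  refine ⟨Λ, i2, sys M, default, N, ?_, ?_, ?_⟩
  · change 0 < bas _ * bas _
    unfold bas
    positivity
  · have h1 := digits_computable (fun a => kap (sym false a))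
    have h2 : Computable (fun n : ℕ => ((trNat n).map (fun a => kap (sym false a))).reverse) :=
      Primrec.list_reverse.to_comp.comp h1
    have h3 := (foldr_computable
      (bas (TM2to1.Γ' PartrecToTM2.K' (fun _ => PartrecToTM2.Γ')))).comp h2
    have h4 : Computable (fun x : ℕ => kap (sym true .cons) +
        (bas (TM2to1.Γ' PartrecToTM2.K' (fun _ => PartrecToTM2.Γ'))) * x) :=
      (Primrec.nat_add.comp (Primrec.const _)
        (Primrec.nat_mul.comp (Primrec.const _) Primrec.id)).to_comp
    refine (h4.comp h3).of_eq ?_
    intro n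
    have e : ∀ l : List PartrecToTM2.Γ', enc (l.map (sym false)) =
        (l.map (fun a => kap (sym false a))).foldr (fun d acc => d +
          (bas (TM2to1.Γ' PartrecToTM2.K' (fun _ => PartrecToTM2.Γ'))) * acc) 0 := by
      intro l
      induction l with
      | nil => rfl
      | cons a l ih =>
        simp only [List.map_cons, enc, List.foldr_cons, ih]
    simp only [N, enc]
    rw [e, List.map_reverse]
  · intro n
    rw [← hM n]
    apply halts_iff
    constructor
    · have := rep_enc (sym true .cons :: (trNat n).reverse.map (sym false))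
      have e : (Tape.mk₁ (sym true PartrecToTM2.Γ'.cons :: (trNat n).reverse.map
          (sym false))).right₀ = ListBlank.mk (sym true .cons ::
            (trNat n).reverse.map (sym false)) := by
        unfold Tape.mk₁ Tape.mk₂
        rw [Tape.mk'_right₀]
      simp only [e]
      exact this
    · exact rep_zero

end Pool.Agent.Y926.VR
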